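import Mathlib
import Pool.Agent.Y670.HC.Main

set_option autoImplicit false

namespace Pool.Agent.Results.MP_1b6964_lc.NotRelativelyHyp

open Pool.Agent.Helper941.IsoProb Pool.Agent.Helper941.Hyp Pool.Agent.Y670.HC

/-- There is a computable, computably categorical structure `A` with a copy `B` whose atomic
diagram is `Δ⁰_3` such that no isomorphism from `A` onto `B` is hyperarithmetic in the atomic
diagram of `B`. So `A` is not relatively hyperarithmetically categorical. -/
theorem result : ∃ ar : ℕ → ℕ, Computable ar ∧ ∃ A : Struct ar, IsComputable A ∧ CompCat A ∧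
    ∃ B : Struct ar, Iso A B ∧ Delta0 3 (Diag B) ∧ ∀ f : ℕ ≃ ℕ, IsIsom A B f → ¬ HypIn f B :=
  main

end Pool.Agent.Results.MP_1b6964_lc.NotRelativelyHyp
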